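import Pool.Agent.Work.MP_e17eac_co.Bd.B30

/-!
# Block SKM, item CORE: the step (from the number of units to the number of new classes)
-/

set_option autoImplicit false

namespace Pool.Agent.Work.MP_e17eac_co.SK

open Finset
open Pool.Agent.Work.MP_e17eac_co.DH
open Pool.Agent.Work.MP_e17eac_co.DH.XSWEEP (GP)
open Pool.Agent.Work.MP_e17eac_co.B1

namespace YCORE

/-- the numerical estimate for the deleted edges -/
theorem num_del {n N r D H c1 c2 q : ℝ} (hn : 0 ≤ n) (hN : 0 ≤ N) (hD : 2 ≤ D)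
    (_hH0 : 0 ≤ H) (hH : H ≤ D) (hr : D ^ 11 ≤ r) (hq : 0 ≤ q)
    (hnN : n * (r * q) ≤ N) (h1 : c1 ≤ 4 * n * q) (h2 : c2 * D ^ 20 ≤ 200 * H * N) :
    (2 * D) ^ 4 * (c1 + c2) ≤ N := by
  have hD0 : 0 < D := by linarith
  have e7 : (128 : ℝ) ≤ D ^ 7 := by
    calc (128 : ℝ) = 2 ^ 7 := by norm_num
      _ ≤ D ^ 7 := pow_le_pow_left₀ (by norm_num) hD 7
  have e15 : (32768 : ℝ) ≤ D ^ 15 := by
    calc (32768 : ℝ) = 2 ^ 15 := by norm_num
      _ ≤ D ^ 15 := pow_le_pow_left₀ (by norm_num) hD 15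
  have a1 : (2 * D) ^ 4 * c1 ≤ N / 2 := by
    have b1 : (2 * D) ^ 4 * c1 ≤ (2 * D) ^ 4 * (4 * n * q) :=
      mul_le_mul_of_nonneg_left h1 (by positivity)
    have b2 : 128 * D ^ 4 ≤ r := by
      refine le_trans ?_ hr
      have : D ^ 11 = D ^ 7 * D ^ 4 := by ring
      rw [this]
      exact mul_le_mul_of_nonneg_right e7 (by positivity)
    have b3 : (128 * D ^ 4) * (n * q) ≤ r * (n * q) :=
      mul_le_mul_of_nonneg_right b2 (by positivity)
    nlinarith
  have a2 : (2 * D) ^ 4 * c2 ≤ N / 2 := by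
    have b1 : c2 * D ^ 20 ≤ 200 * D * N := by
      refine h2.trans ?_
      have := mul_le_mul_of_nonneg_right hH hN
      nlinarith
    have b2 : (6400 * D ^ 4) * (D * (c2 * D ^ 15)) ≤ (6400 * D ^ 4) * (200 * D * N) / D ^ 4 := by
      rw [le_div_iff₀ (by positivity)]
      have : (6400 * D ^ 4) * (D * (c2 * D ^ 15)) * D ^ 4 = (6400 * D ^ 4) * (c2 * D ^ 20) := by
        ring
      rw [this]
      exact mul_le_mul_of_nonneg_left b1 (by positivity)
    by_cases hc : c2 ≤ 0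
    · have : (2 * D) ^ 4 * c2 ≤ 0 := mul_nonpos_of_nonneg_of_nonpos (by positivity) hc
      linarith
    · push Not at hc
      have b3 : c2 * D ^ 4 * 32768 ≤ 200 * N := by
        have b4 : c2 * D ^ 4 * 32768 ≤ c2 * D ^ 4 * D ^ 15 :=
          mul_le_mul_of_nonneg_left e15 (by positivity)
        have b5 : c2 * D ^ 4 * D ^ 15 * D ≤ 200 * N * D := by
          have : c2 * D ^ 4 * D ^ 15 * D = c2 * D ^ 20 := by ring
          rw [this]
          linarith
        have b6 := le_of_mul_le_mul_right b5 hD0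
        linarith
      have : (2 * D) ^ 4 * c2 = 16 * (c2 * D ^ 4) := by ring
      rw [this]
      nlinarith [mul_pos hc (show (0 : ℝ) < D ^ 4 by positivity)]
  nlinarith

/-- the numerical estimate for the number of classes -/
theorem num_cnt {β β' G D r q L : ℝ} (hβ : 0 < β) (hG : 0 < G) (hD : 2 ≤ D) (hr : 1 ≤ r)
    (hq : 0 < q) (hL0 : 0 ≤ L) (hL : L ≤ D)
    (hlow : β * q ≤ D * D * G)
    (h : β' ≤ β * (4 * ((2 * G * r ^ 2 / β) / (q / D ^ 20)) * L + 3) ^ 2) :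
    β' * β * q ^ 2 ≤ D ^ 50 * r ^ 4 * G ^ 2 := by
  have hD0 : 0 < D := by linarith
  have h1 : β' * β * q ^ 2 ≤ (β * q * (4 * ((2 * G * r ^ 2 / β) / (q / D ^ 20)) * L + 3)) ^ 2 := by
    have := mul_le_mul_of_nonneg_right h (show 0 ≤ β * q ^ 2 by positivity)
    calc β' * β * q ^ 2 = β' * (β * q ^ 2) := by ring
      _ ≤ _ := this
      _ = _ := by ring
  have h2 : β * q * (4 * ((2 * G * r ^ 2 / β) / (q / D ^ 20)) * L + 3) =
      8 * G * r ^ 2 * D ^ 20 * L + 3 * (β * q) := by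
    field_simp
    ring
  have h3 : 8 * G * r ^ 2 * D ^ 20 * L + 3 * (β * q) ≤ D ^ 25 * r ^ 2 * G := by
    have a1 : 8 * G * r ^ 2 * D ^ 20 * L ≤ 8 * G * r ^ 2 * D ^ 20 * D :=
      mul_le_mul_of_nonneg_left hL (by positivity)
    have hr2 : (1 : ℝ) ≤ r ^ 2 := one_le_pow₀ hr
    have hD19 : (1 : ℝ) ≤ D ^ 19 := one_le_pow₀ (by linarith)
    have a2 : D * D * G ≤ G * r ^ 2 * D ^ 21 := by
      have b1 : G * (D * D) * 1 ≤ G * (D * D) * (r ^ 2 * D ^ 19) :=
        mul_le_mul_of_nonneg_left (by nlinarith) (by positivity)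
      calc D * D * G = G * (D * D) * 1 := by ring
        _ ≤ _ := b1
        _ = _ := by ring
    have e4 : (16 : ℝ) ≤ D ^ 4 := by
      calc (16 : ℝ) = 2 ^ 4 := by norm_num
        _ ≤ D ^ 4 := pow_le_pow_left₀ (by norm_num) hD 4
    have a3 : 16 * (G * r ^ 2 * D ^ 21) ≤ D ^ 4 * (G * r ^ 2 * D ^ 21) :=
      mul_le_mul_of_nonneg_right e4 (by positivity)
    have a4 : 0 ≤ G * r ^ 2 * D ^ 21 := by positivity
    calc 8 * G * r ^ 2 * D ^ 20 * L + 3 * (β * q)
        ≤ 8 * G * r ^ 2 * D ^ 20 * D + 3 * (D * D * G) := by linarith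
      _ ≤ 8 * (G * r ^ 2 * D ^ 21) + 3 * (G * r ^ 2 * D ^ 21) := by
        have : 8 * G * r ^ 2 * D ^ 20 * D = 8 * (G * r ^ 2 * D ^ 21) := by ring
        rw [this]; linarith
      _ ≤ 16 * (G * r ^ 2 * D ^ 21) := by linarith
      _ ≤ D ^ 4 * (G * r ^ 2 * D ^ 21) := a3
      _ = D ^ 25 * r ^ 2 * G := by ring
  have h4 : 0 ≤ 8 * G * r ^ 2 * D ^ 20 * L + 3 * (β * q) := by positivity
  calc β' * β * q ^ 2 ≤ _ := h1
    _ = (8 * G * r ^ 2 * D ^ 20 * L + 3 * (β * q)) ^ 2 := by rw [h2]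
    _ ≤ (D ^ 25 * r ^ 2 * G) ^ 2 := pow_le_pow_left₀ h4 h3 2
    _ = D ^ 50 * r ^ 4 * G ^ 2 := by ring

end YCORE

open YCORE in
theorem J_CORE (hCD : StClsDel) (hUL : StUnLow) (hHB : StHashB) (hH5 : StH5Del) (hH4 : StH4)
    (hTS1 : StTS1) : StCore := by
  classical
  refine ⟨50, ?_⟩
  intro ι _ _ K r m H D P E κ x G hxm hR hTS hkey h1 hstab hUn
  have hn2 : 2 ≤ Fintype.card ι := hR.card
  have hn0 : 0 < Fintype.card ι := by omega
  have hN0 : 0 < K.N := hR.N_pos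
  have hD2 := hR.two
  have hD1 : 1 ≤ D := hR.one_le
  have hD0 : 0 < D := by linarith
  have hH1 := hR.std.one
  have hH0 : 0 < H := by linarith
  have hHD := hR.H_le
  have hr2 := hR.std.two
  have hr1 : 1 ≤ r := by omega
  have hr1' : (1 : ℝ) ≤ (r : ℝ) := by exact_mod_cast hr1
  have hrD11 : D ^ 11 ≤ (r : ℝ) :=
    (pow_le_pow_right₀ hD1 (by omega : 11 ≤ 50 + 4 * x)).trans hR.rD
  have hr3 : 3 ≤ r := by
    have h2 : (4 : ℝ) ≤ D ^ 11 := by
      calc (4 : ℝ) ≤ 2 ^ 11 := by norm_num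
        _ ≤ D ^ 11 := pow_le_pow_left₀ (by norm_num) hD2 11
    have h3 : (3 : ℝ) ≤ (r : ℝ) := by linarith
    exact_mod_cast h3
  have hlog0 : 0 ≤ Real.log (Fintype.card ι) :=
    Real.log_nonneg (by exact_mod_cast (by omega : 1 ≤ Fintype.card ι))
  have hlogD : Real.log (Fintype.card ι) ≤ D := by linarith [hR.log_le]
  set β : ℕ := (P.image κ).card with hβ
  have hβ0 : 0 < β := by
    rw [hβ, card_pos]
    exact (ts_nonempty hTS hn0).image κ
  have hβ0' : (0 : ℝ) < (β : ℝ) := by exact_mod_cast hβ0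
  set q : ℝ := (r : ℝ) ^ x with hq
  have hq0 : 0 < q := by positivity
  have hlow : (β : ℝ) * q ≤ D * D * G := by
    have a1 := hUL ι K r m H D P E κ x hr1 hH0 hD0 hxm hN0 hTS true
    have a2 := hUn true
    have a3 : (0 : ℝ) ≤ (Un K r x κ (E true) : ℝ) := Nat.cast_nonneg _
    calc (β : ℝ) * q ≤ H * D * (Un K r x κ (E true) : ℝ) := a1
      _ ≤ D * D * (Un K r x κ (E true) : ℝ) := by gcongr
      _ ≤ D * D * G := by gcongr
  have hG : 0 < G := by
    by_contra hG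
    push Not at hG
    have : D * D * G ≤ 0 := mul_nonpos_of_nonneg_of_nonpos (by positivity) hG
    have := mul_pos hβ0' hq0
    linarith
  -- deleting classes
  obtain ⟨P1, hP1, hTSP1, hact⟩ := hCD ι K r m H D P E κ x G hr3 hD1 hn0 hTS hstab hG hUn
  set E1 : Bool → Finset ℕ := fun s => (E s).filter (fun i => K.a i ∈ P1) with hE1
  set A : ℝ := 2 * G * (r : ℝ) ^ 2 / β with hA
  set h : ℝ := q / D ^ 20 with hh
  have hh0 : 0 < h := by positivity
  have hactA : ∀ p ∈ P1, ((act K r x κ E1 (κ p)).card : ℝ) ≤ A := by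
    intro p hp
    have a1 := hact p hp
    have a2 : act K r x κ E1 (κ p) ⊆ act K r x κ E (κ p) := by
      unfold act
      refine image_subset_image (filter_subset_filter _ ?_)
      exact union_subset_union (filter_subset _ _) (filter_subset _ _)
    have a3 : ((act K r x κ E1 (κ p)).card : ℝ) ≤ ((act K r x κ E (κ p)).card : ℝ) := by
      exact_mod_cast card_le_card a2
    rw [hA, le_div_iff₀ hβ0']
    exact (mul_le_mul_of_nonneg_right a3 hβ0'.le).trans a1
  obtain ⟨κ', hkey', href, hcut, hsep, hcnt⟩ := hHB ι K r x hr1 hn2 P1 E1 κ h A hh0 hkey hactA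
    (by
      intro c hc
      rcases mem_union.1 hc with hc | hc
      · exact (hTSP1.hyg true c hc).lt
      · exact (hTSP1.hyg false c hc).lt)
  set E2 : Bool → Finset ℕ := fun s => (E1 s).filter (fun i => κ' (K.a i) = κ' (K.b i) ∧
    100 * ((cl K r m H κ' (K.a i)) \ vis K r x (cell K r x i)).card ≤
      (cl K r m H κ' (K.a i)).card) with hE2
  have hE21 : ∀ s, E2 s ⊆ E1 s := fun s => filter_subset _ _
  have hE10 : ∀ s, E1 s ⊆ E s := fun s => filter_subset _ _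
  have hdel : ∀ s, (2 * D) ^ 4 * ((E1 s \ E2 s).card : ℝ) ≤ K.N := by
    intro s
    set F1 := (range K.N).filter (fun i => κ (K.a i) = κ (K.b i) ∧ κ' (K.a i) ≠ κ' (K.b i))
      with hF1
    set F2 := (E1 s).filter (fun i => ¬ 100 * ((cl K r m H κ' (K.a i)) \
      vis K r x (cell K r x i)).card ≤ (cl K r m H κ' (K.a i)).card) with hF2
    have b1 : E1 s \ E2 s ⊆ F1 ∪ F2 := by
      intro i hi
      obtain ⟨hi1, hi2⟩ := mem_sdiff.1 hi
      by_cases hc : κ' (K.a i) = κ' (K.b i)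
      · refine mem_union_right _ (mem_filter.2 ⟨hi1, fun h5 => hi2 ?_⟩)
        exact mem_filter.2 ⟨hi1, hc, h5⟩
      · refine mem_union_left _ (mem_filter.2 ⟨mem_range.2 (hTSP1.hyg s i hi1).lt, ?_, hc⟩)
        exact h1 s i (hE10 s hi1)
    have b2 : ((E1 s \ E2 s).card : ℝ) ≤ (F1.card : ℝ) + (F2.card : ℝ) := by
      exact_mod_cast (card_le_card b1).trans (card_union_le _ _)
    have b3 : (F1.card : ℝ) ≤ 4 * Fintype.card ι * (r : ℝ) ^ (4 * x) := by
      exact_mod_cast hcut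
    have b4 := hH5 ι K r m x hr1 hxm hn0 H h hH0.le hh0.le P1 E1 κ κ'
      (fun s i hi => ⟨hTSP1.hyg s i hi, hTSP1.aP s i hi⟩) href hsep s
    have b5 : (F2.card : ℝ) * D ^ 20 ≤ 200 * H * K.N := by
      have c1 : (F2.card : ℝ) * q ≤ 200 * H * K.N * h := b4
      have c2 : (F2.card : ℝ) * D ^ 20 * q ≤ 200 * H * K.N * q := by
        have c3 := mul_le_mul_of_nonneg_right c1 (show 0 ≤ D ^ 20 by positivity)
        have c4 : 200 * H * K.N * h * D ^ 20 = 200 * H * K.N * q := by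
          rw [hh]; field_simp
        rw [c4] at c3
        linarith
      exact le_of_mul_le_mul_right c2 hq0
    have b6 : (Fintype.card ι : ℝ) * ((r : ℝ) * (r : ℝ) ^ (4 * x)) ≤ K.N := by
      refine le_trans ?_ hR.nN
      refine mul_le_mul_of_nonneg_left ?_ (by positivity)
      rw [← pow_succ']
      exact pow_le_pow_right₀ hr1' (by omega)
    have b7 := num_del (n := (Fintype.card ι : ℝ)) (N := (K.N : ℝ)) (r := (r : ℝ)) (D := D)
      (H := H) (c1 := (F1.card : ℝ)) (c2 := (F2.card : ℝ)) (q := (r : ℝ) ^ (4 * x))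
      (by positivity) (by positivity) hD2 hH0.le hHD hrD11 (by positivity) b6 b3 b5
    refine le_trans ?_ b7
    exact mul_le_mul_of_nonneg_left b2 (by positivity)
  obtain ⟨P2, hP2, hTSP2⟩ := hTS1 ι K r m H (2 * D) P1 E1 E2 (by linarith) hN0 hTSP1 hE21 hdel
  set E3 : Bool → Finset ℕ := fun s => (E2 s).filter (fun i => K.a i ∈ P2) with hE3
  have hE32 : ∀ s, E3 s ⊆ E2 s := fun s => filter_subset _ _
  have hpow : ∀ j, j ≤ 50 → D ^ j ≤ D ^ 50 := fun j hj => pow_le_pow_right₀ hD1 hj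
  refine ⟨P2, E3, κ', ⟨hP2.trans hP1, fun s => (hE32 s).trans ((hE21 s).trans (hE10 s))⟩, ?_, ?_,
    href, ?_⟩
  · refine ts_mono hTSP2 ?_
    have a1 : 4 * (2 * D) ≤ D ^ 4 := by
      have : (8 : ℝ) ≤ D ^ 3 := by
        calc (8 : ℝ) = 2 ^ 3 := by norm_num
          _ ≤ D ^ 3 := pow_le_pow_left₀ (by norm_num) hD2 3
      have e : D ^ 4 = D ^ 3 * D := by ring
      rw [e]
      nlinarith
    exact a1.trans (hpow 4 (by norm_num))
  · refine ⟨hkey', ?_, ?_, ?_⟩
    · intro s i hi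
      exact (mem_filter.1 (hE32 s hi)).2.1
    · intro s B
      have a1 := hH4 ι K r m x hr1 hxm H hH0.le (E3 s) κ' (fun i hi => hTSP2.hyg s i hi)
        (fun i hi => (mem_filter.1 (hE32 s hi)).2.2) B
      refine a1.trans (mul_le_mul_of_nonneg_right ?_ (by positivity))
      have a2 : 2 * H ≤ D ^ 2 := by nlinarith
      exact a2.trans (hpow 2 (by norm_num))
    · intro s i hi
      exact (mem_filter.1 (hE32 s hi)).2.2
  · have a1 : ((P2.image κ').card : ℝ) ≤ ((P1.image κ').card : ℝ) := by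
      exact_mod_cast image_card_mono hP2
    have a2 : ((P1.image κ).card : ℝ) ≤ (β : ℝ) := by
      exact_mod_cast image_card_mono hP1
    have a3 : ((P2.image κ').card : ℝ) ≤ (β : ℝ) *
        (4 * (A / h) * Real.log (Fintype.card ι) + 3) ^ 2 :=
      a1.trans (hcnt.trans (mul_le_mul_of_nonneg_right a2 (by positivity)))
    have a4 := num_cnt (β := (β : ℝ)) (β' := ((P2.image κ').card : ℝ)) (G := G) (D := D)
      (r := (r : ℝ)) (q := q) (L := Real.log (Fintype.card ι)) hβ0' hG hD2 hr1' hq0 hlog0 hlogD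
      hlow a3
    have e : (r : ℝ) ^ (2 * x) = q ^ 2 := by rw [hq, ← pow_mul, mul_comm]
    rw [e]
    exact a4

end Pool.Agent.Work.MP_e17eac_co.SK

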