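import Pool.Agent.Work.MP_e17eac_co.Bd.B30

/-!
# Item SKM FLUXU: few units after deleting few edges
-/

namespace Pool.Agent.Work.MP_e17eac_co.SK

open Finset
open Pool.Agent.Work.MP_e17eac_co.DH
open Pool.Agent.Work.MP_e17eac_co.B1

namespace YFLUXUB

/-- Heavy units are few. -/
theorem heavy {υ : Type} [DecidableEq υ] (u : ℕ → υ) (F : Finset ℕ) (θ : ℝ) :
    (((F.filter (fun i => θ ≤ ((F.filter (fun j => u j = u i)).card : ℝ))).image u).card : ℝ) * θ
      ≤ (F.card : ℝ) := by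
  classical
  set G := F.filter (fun i => θ ≤ ((F.filter (fun j => u j = u i)).card : ℝ)) with hG
  have e1 : ∑ U ∈ G.image u, ((F.filter (fun j => u j = U)).card : ℝ) ≤ (F.card : ℝ) := by
    have : ∑ U ∈ G.image u, (F.filter (fun j => u j = U)).card ≤ F.card := by
      rw [← card_biUnion]
      · apply card_le_card
        intro i hi
        rw [mem_biUnion] at hi
        obtain ⟨U, _, hi⟩ := hi
        exact (mem_filter.1 hi).1
      · intro U _ U' _ hne
        show Disjoint (F.filter (fun j => u j = U)) (F.filter (fun j => u j = U'))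
        rw [disjoint_left]
        intro i hi hi'
        exact hne ((mem_filter.1 hi).2.symm.trans (mem_filter.1 hi').2)
    exact_mod_cast this
  refine le_trans ?_ e1
  rw [← nsmul_eq_mul, ← sum_const]
  apply sum_le_sum
  intro U hU
  rw [mem_image] at hU
  obtain ⟨i, hi, rfl⟩ := hU
  exact (mem_filter.1 hi).2

/-- The bound for the light edges. -/
theorem num {F F1 A B T T' θ n N D X M C2 : ℝ} {c3 k : ℕ} (hD : 2 ≤ D) (hn : 0 < n) (hN : 0 < N)
    (hX : 0 < X) (hM : 0 < M) (hC2 : 0 ≤ C2) (hC : C2 ≤ D ^ c3)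
    (hθ : θ = N / (D ^ (4 * k + 4 * c3 + 30) * X ^ 2 * M ^ 2))
    (hA0 : 0 ≤ A) (hB0 : 0 ≤ B) (hT0 : 0 ≤ T) (hT0' : 0 ≤ T') (hF1 : 0 ≤ F1)
    (hA : A ≤ C2 * n * X) (hB : B ≤ C2 * n * X) (hT : T ≤ D ^ (c3 + 3) * n * M)
    (hT' : T' ≤ D ^ (c3 + 3) * n * M)
    (hd : n ^ 4 ≤ D ^ 3 * N ^ 3) (hbig : D ^ (k + 6 + c3) * (n * X) ≤ N)
    (h1 : F ≤ F1 + 16 * A + 16 * B) (h2 : F1 ^ 4 ≤ 2048 * θ * A * B * T * T') :
    D ^ k * F ≤ N := by
  have hD0 : 0 < D := by linarith
  have hD1 : 1 ≤ D := by linarith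
  have hθ0 : 0 < θ := by rw [hθ]; positivity
  have e1 : F1 ^ 4 ≤ 2048 * θ * (C2 * n * X) * (C2 * n * X) * (D ^ (c3 + 3) * n * M) *
      (D ^ (c3 + 3) * n * M) := by
    refine h2.trans ?_
    gcongr
  have e2 : 2048 * θ * (C2 * n * X) * (C2 * n * X) * (D ^ (c3 + 3) * n * M) *
      (D ^ (c3 + 3) * n * M) ≤ D ^ 11 * θ * (D ^ c3 * n * X) * (D ^ c3 * n * X) *
      (D ^ (c3 + 3) * n * M) * (D ^ (c3 + 3) * n * M) := by
    have : (2048 : ℝ) ≤ D ^ 11 := by
      calc (2048 : ℝ) = 2 ^ 11 := by norm_num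
        _ ≤ D ^ 11 := pow_le_pow_left₀ (by norm_num) hD 11
    gcongr
  have e3 : D ^ 11 * θ * (D ^ c3 * n * X) * (D ^ c3 * n * X) *
      (D ^ (c3 + 3) * n * M) * (D ^ (c3 + 3) * n * M) =
      (n ^ 4 * N) * (D ^ (4 * c3 + 17) / D ^ (4 * k + 4 * c3 + 30)) := by
    rw [hθ]
    field_simp
    ring
  have e4 : D ^ (4 * c3 + 17) / D ^ (4 * k + 4 * c3 + 30) * D ^ 3 = (1 / D ^ (k + 2)) ^ 4 *
      (1 / D ^ 2) := by
    field_simp
    ring
  have e5 : F1 ^ 4 ≤ (N / D ^ (k + 2)) ^ 4 := by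
    calc F1 ^ 4 ≤ (n ^ 4 * N) * (D ^ (4 * c3 + 17) / D ^ (4 * k + 4 * c3 + 30)) :=
          e1.trans (e2.trans e3.le)
      _ ≤ ((D ^ 3 * N ^ 3) * N) * (D ^ (4 * c3 + 17) / D ^ (4 * k + 4 * c3 + 30)) := by gcongr
      _ = N ^ 4 * (D ^ (4 * c3 + 17) / D ^ (4 * k + 4 * c3 + 30) * D ^ 3) := by ring
      _ = N ^ 4 * ((1 / D ^ (k + 2)) ^ 4 * (1 / D ^ 2)) := by rw [e4]
      _ ≤ N ^ 4 * ((1 / D ^ (k + 2)) ^ 4 * 1) := by
          gcongr
          rw [div_le_one (by positivity)]
          exact one_le_pow₀ hD1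
      _ = _ := by ring
  have e6 : F1 ≤ N / D ^ (k + 2) := le_of_pow_le_pow_left₀ (by norm_num) (by positivity) e5
  have e7 : D ^ k * F1 ≤ N / 4 := by
    calc D ^ k * F1 ≤ D ^ k * (N / D ^ (k + 2)) := by gcongr
      _ = N / D ^ 2 := by field_simp; ring
      _ ≤ N / 4 := by
          apply div_le_div_of_nonneg_left hN.le (by norm_num)
          nlinarith
  have e8 : D ^ k * (32 * (C2 * n * X)) ≤ N / 2 := by
    have : D ^ k * (64 * (C2 * n * X)) ≤ N := by
      calc D ^ k * (64 * (C2 * n * X)) = D ^ k * (2 ^ 6 * (C2 * n * X)) := by norm_num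
        _ ≤ D ^ k * (D ^ 6 * (D ^ c3 * n * X)) := by gcongr
        _ = D ^ (k + 6 + c3) * (n * X) := by ring
        _ ≤ N := hbig
    linarith
  calc D ^ k * F ≤ D ^ k * (F1 + 16 * A + 16 * B) := by gcongr
    _ ≤ D ^ k * (F1 + 16 * (C2 * n * X) + 16 * (C2 * n * X)) := by gcongr
    _ = D ^ k * F1 + D ^ k * (32 * (C2 * n * X)) := by ring
    _ ≤ N / 4 + N / 2 := by linarith
    _ ≤ N := by linarith

end YFLUXUB

open YFLUXUB

theorem J_FLUXU (hL : StLight) (hTU : StTokU) (hT2 : StT2c) : StFluxU := by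
  intro k
  obtain ⟨C2, hC2, hT2⟩ := hT2
  obtain ⟨C3, hC3, hTU⟩ := hTU
  obtain ⟨c3, hc3⟩ := pow_unbounded_of_one_lt (max C2 C3) (by norm_num : (1 : ℝ) < 2)
  refine ⟨4 * k + 4 * c3 + 30, ?_⟩
  intro ι _ _ K r m H D P E κ x0 x hx0 hxm hR hTS hC
  classical
  have hD2 := hR.two
  have hD0 : 0 < D := by linarith
  have hD1 := hR.one_le
  have hn2 := hR.card
  have hn0 : 0 < Fintype.card ι := by omega
  have hn : (0 : ℝ) < (Fintype.card ι : ℝ) := by exact_mod_cast hn0
  have hN : (0 : ℝ) < (K.N : ℝ) := by exact_mod_cast hR.N_pos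
  have hr2 := hR.std.two
  have hr1 : 1 ≤ r := by omega
  have hr1' : (1 : ℝ) ≤ (r : ℝ) := by exact_mod_cast hr1
  have hr0 : (0 : ℝ) < (r : ℝ) := by linarith
  have hH1 := hR.std.one
  have hH0 : 0 ≤ H := by linarith
  have hHD := hR.H_le
  have h2c : (2 : ℝ) ^ c3 ≤ D ^ c3 := pow_le_pow_left₀ (by norm_num) hD2 c3
  have hC2D : C2 ≤ D ^ c3 := (le_max_left C2 C3).trans (hc3.le.trans h2c)
  have hC3D : C3 ≤ D ^ c3 := (le_max_right C2 C3).trans (hc3.le.trans h2c)
  set X : ℝ := (r : ℝ) ^ x with hXdef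
  set Z : ℝ := (r : ℝ) ^ x0 with hZdef
  set β : ℝ := ((P.image κ).card : ℝ) with hβdef
  have hX0 : 0 < X := by positivity
  have hZ0 : 0 < Z := by positivity
  have hβ0 : 0 ≤ β := by positivity
  set M : ℝ := (X * Z ^ 2 + β) / Z ^ 2 with hMdef
  have hM0 : 0 < M := by positivity
  set c : ℕ := 4 * k + 4 * c3 + 30 with hcdef
  set θ : ℝ := (K.N : ℝ) / (D ^ c * X ^ 2 * M ^ 2) with hθdef
  have hθ0 : 0 < θ := by positivity
  let u : ℕ → ℕ × ℕ := fun i => (cell K r x i, κ (K.a i))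
  refine ⟨fun s => (E s).filter (fun i => θ ≤ (((E s).filter (fun j => u j = u i)).card : ℝ)), ?_⟩
  intro s
  have hEN : E s ⊆ range K.N := fun i hi => mem_range.2 (hTS.hyg s i hi).lt
  refine ⟨filter_subset _ _, ?_, ?_⟩
  · set F := E s \ (E s).filter (fun i => θ ≤ (((E s).filter (fun j => u j = u i)).card : ℝ))
      with hFdef
    have hFE : F ⊆ E s := sdiff_subset
    have hlight : ∀ i ∈ F, ((F.filter (fun j => u j = u i)).card : ℝ) ≤ θ := by
      intro i hi
      rw [hFdef, mem_sdiff, mem_filter, not_and] at hi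
      have h1 := hi.2 hi.1
      rw [not_le] at h1
      refine le_trans ?_ h1.le
      exact_mod_cast card_le_card (filter_subset_filter _ hFE)
    obtain ⟨F1, hF1, hF2, hF3⟩ := hL ι (ℕ × ℕ) K hR.std.inj u F θ (hFE.trans hEN) hθ0.le hlight
    have hT2x := (hT2 ι K hR.std.inj hR.gp r x hr1).2.2.2.1 F (hFE.trans hEN)
    have hA : ((F.image (fun i => (u i, K.a i))).card : ℝ) ≤ C2 * Fintype.card ι * X := by
      refine le_trans ?_ (hT2x false).1
      have : (F.image (fun i => (u i, K.a i))).card ≤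
          (F.image (fun i => (cell K r x i, K.ln false i))).card := by
        have e1 : F.image (fun i => (u i, K.a i)) =
            (F.image (fun i => (cell K r x i, K.ln false i))).image
              (fun z => ((z.1, κ z.2), z.2)) := by
          rw [image_image]
          rfl
        rw [e1]
        exact card_image_le
      exact_mod_cast this
    have hB : ((F.image (fun i => (u i, K.b i))).card : ℝ) ≤ C2 * Fintype.card ι * X := by
      refine le_trans ?_ (hT2x true).1
      have : (F.image (fun i => (u i, K.b i))).card ≤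
          (F.image (fun i => (cell K r x i, K.ln true i))).card := by
        have e1 : F.image (fun i => (u i, K.b i)) =
            (F.image (fun i => (cell K r x i, K.ln true i))).image
              (fun z => ((z.1, κ z.2), z.2)) := by
          rw [image_image]
          apply image_congr
          intro i hi
          show ((cell K r x i, κ (K.a i)), K.b i) = ((cell K r x i, κ (K.b i)), K.b i)
          rw [hC.h1 s i (hFE hi)]
        rw [e1]
        exact card_image_le
      exact_mod_cast this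
    have hTt : ∀ s', ((F.image (fun i => (u i, K.tok s' i))).card : ℝ) ≤
        D ^ (c3 + 3) * Fintype.card ι * M := by
      intro s'
      have h1 := hTU ι K hR.std.inj hR.gp r m H D P E κ x0 x hr1 (hx0.trans hxm) hD0.le hH0
        (fun s i hi => ⟨hTS.hyg s i hi, hTS.aP s i hi⟩) hC s F hFE s'
      have e1 : (r : ℝ) ^ (2 * x0) = Z ^ 2 := by
        rw [hZdef, ← pow_mul, mul_comm]
      have e2 : (r : ℝ) ^ (x + 2 * x0) = X * Z ^ 2 := by
        rw [pow_add, e1]
      rw [e1, e2] at h1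
      have h2 : ((F.image (fun i => (u i, K.tok s' i))).card : ℝ) * Z ^ 2 ≤
          (D ^ (c3 + 3) * Fintype.card ι * M) * Z ^ 2 := by
        refine h1.trans ?_
        have e3 : (D ^ (c3 + 3) * Fintype.card ι * M) * Z ^ 2 =
            D ^ (c3 + 3) * Fintype.card ι * (X * Z ^ 2 + β) := by
          rw [hMdef]
          field_simp
        rw [e3]
        have e4 : C3 * Fintype.card ι * (X * Z ^ 2) ≤
            D ^ (c3 + 3) * Fintype.card ι * (X * Z ^ 2) := by
          have : C3 ≤ D ^ (c3 + 3) := hC3D.trans (pow_le_pow_right₀ hD1 (by omega))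
          gcongr
        have e5 : 2 * β * D * H * Fintype.card ι ≤ D ^ (c3 + 3) * Fintype.card ι * β := by
          have e6 : (2 : ℝ) * D * H ≤ D ^ (c3 + 3) := by
            calc (2 : ℝ) * D * H ≤ D * D * D := by gcongr
              _ = D ^ 3 := by ring
              _ ≤ D ^ (c3 + 3) := pow_le_pow_right₀ hD1 (by omega)
          calc 2 * β * D * H * Fintype.card ι = (2 * D * H) * (Fintype.card ι * β) := by ring
            _ ≤ D ^ (c3 + 3) * (Fintype.card ι * β) := by gcongr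
            _ = _ := by ring
        linarith
      exact le_of_mul_le_mul_right h2 (by positivity)
    have hbig : D ^ (k + 6 + c3) * (Fintype.card ι * X) ≤ K.N := by
      have e1 : D ^ (k + 6 + c3) ≤ (r : ℝ) := by
        refine le_trans (pow_le_pow_right₀ hD1 ?_) hR.rD
        omega
      have e2 : (r : ℝ) ≤ (r : ℝ) ^ c := by
        calc (r : ℝ) = (r : ℝ) ^ 1 := (pow_one _).symm
          _ ≤ _ := pow_le_pow_right₀ hr1' (by omega)
      calc D ^ (k + 6 + c3) * (Fintype.card ι * X) ≤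
          (r : ℝ) ^ c * (Fintype.card ι * X) := by
            gcongr
            exact e1.trans e2
        _ = Fintype.card ι * (r : ℝ) ^ (c + x) := by rw [pow_add]; ring
        _ ≤ K.N := hR.nN
    exact num (F := (F.card : ℝ)) (F1 := F1)
      (A := ((F.image (fun i => (u i, K.a i))).card : ℝ))
      (B := ((F.image (fun i => (u i, K.b i))).card : ℝ))
      (T := ((F.image (fun i => (u i, K.tokB i))).card : ℝ))
      (T' := ((F.image (fun i => (u i, K.tokT i))).card : ℝ))
      (n := (Fintype.card ι : ℝ)) (X := X) (M := M) (C2 := C2) (θ := θ) (c3 := c3)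
      hD2 hn hN hX0 hM0 (by linarith) hC2D hθdef
      (by positivity) (by positivity) (by positivity) (by positivity) hF1 hA hB
      (hTt false) (hTt true) hR.dense hbig hF2 hF3
  · have h1 := heavy u (E s) θ
    have h2 : (Un K r x κ ((E s).filter (fun i => θ ≤ (((E s).filter (fun j => u j = u i)).card :
        ℝ))) : ℝ) * θ ≤ K.N := by
      refine h1.trans ?_
      have : (E s).card ≤ K.N := by
        simpa using card_le_card hEN
      exact_mod_cast this
    have e1 : (r : ℝ) ^ (4 * x0) = Z ^ 4 := by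
      rw [hZdef, ← pow_mul, mul_comm]
    have e2 : (r : ℝ) ^ (x + 2 * x0) = X * Z ^ 2 := by
      rw [pow_add, hZdef, ← pow_mul, mul_comm x0 2]
    have e3 : (r : ℝ) ^ (2 * x) = X ^ 2 := by
      rw [hXdef, ← pow_mul, mul_comm]
    rw [e1, e2, e3]
    have h3 : (Un K r x κ ((E s).filter (fun i => θ ≤ (((E s).filter (fun j => u j = u i)).card :
        ℝ))) : ℝ) ≤ D ^ c * X ^ 2 * M ^ 2 := by
      rw [hθdef, mul_div_assoc', div_le_iff₀ (by positivity), mul_comm (K.N : ℝ)] at h2
      exact le_of_mul_le_mul_right h2 hN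
    calc (Un K r x κ ((E s).filter (fun i => θ ≤ (((E s).filter (fun j => u j = u i)).card :
        ℝ))) : ℝ) * Z ^ 4 ≤ (D ^ c * X ^ 2 * M ^ 2) * Z ^ 4 := by gcongr
      _ = D ^ c * X ^ 2 * (X * Z ^ 2 + β) ^ 2 := by
        rw [hMdef]
        field_simp

end Pool.Agent.Work.MP_e17eac_co.SK
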