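import Pool.Agent.Work.MP_e17eac_co.SK.Q_CORE

/-!
# Block SKM, item JUMP: the jump

`StCore` asks for `D ^ (C + 4 x) ≤ r`; its proof only needs `D ^ C ≤ r` and `n r ^ (C + 4 x) ≤ N`
(`StCore2`, same proof). The jump needs the latter form, since its losses are powers of `D`.
-/

set_option autoImplicit false

namespace Pool.Agent.Work.MP_e17eac_co.SK

open Finset
open Pool.Agent.Work.MP_e17eac_co.DH
open Pool.Agent.Work.MP_e17eac_co.DH.XSWEEP (GP)
open Pool.Agent.Work.MP_e17eac_co.B1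

namespace YJUMP

/-- The step with separate exponents for `D ^ C ≤ r` and `n r ^ (C + 4 x) ≤ N`. -/
def StCore2 : Prop := ∃ C : ℕ, ∀ (ι : Type) [Fintype ι] [DecidableEq ι] (K : KSys ι) (r m : ℕ)
  (H D : ℝ) (P : Finset ι) (E : Bool → Finset ℕ) (κ : ι → ℕ) (x : ℕ) (G : ℝ),
  x ≤ m → Rg K r m H D C → (Fintype.card ι : ℝ) * (r : ℝ) ^ (C + 4 * x) ≤ K.N →
  TS K r m H D P E → SKey K κ →
  (∀ s, ∀ i ∈ E s, κ (K.a i) = κ (K.b i)) → Stab K r m H (2 * D) P E κ →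
  (∀ s, (Un K r x κ (E s) : ℝ) ≤ G) →
  ∃ (P' : Finset ι) (E' : Bool → Finset ℕ) (κ' : ι → ℕ), SubTS P' E' P E ∧
    TS K r m H (D ^ C) P' E' ∧ Cls K r m H x (D ^ C) E' κ' ∧
    (∀ p q, κ' p = κ' q → κ p = κ q) ∧
    ((P'.image κ').card : ℝ) * (P.image κ).card * (r : ℝ) ^ (2 * x) ≤
      D ^ C * (r : ℝ) ^ 4 * G ^ 2

open YCORE in
theorem core2 (hCD : StClsDel) (hUL : StUnLow) (hHB : StHashB) (hH5 : StH5Del) (hH4 : StH4)
    (hTS1 : StTS1) : StCore2 := by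
  classical
  refine ⟨50, ?_⟩
  intro ι _ _ K r m H D P E κ x G hxm hR hnN hTS hkey h1 hstab hUn
  have hn2 : 2 ≤ Fintype.card ι := hR.card
  have hn0 : 0 < Fintype.card ι := by omega
  have hN0 : 0 < K.N := hR.N_pos
  have hD2 := hR.two
  have hD1 : 1 ≤ D := hR.one_le
  have hD0 : 0 < D := by linarith
  have hH1 := hR.std.one
  have hH0 : 0 < H := by linarith
  have hHD := hR.H_le
  have hr2 := hR.std.two
  have hr1 : 1 ≤ r := by omega
  have hr1' : (1 : ℝ) ≤ (r : ℝ) := by exact_mod_cast hr1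
  have hrD11 : D ^ 11 ≤ (r : ℝ) :=
    (pow_le_pow_right₀ hD1 (by omega : 11 ≤ 50)).trans hR.rD
  have hr3 : 3 ≤ r := by
    have h2 : (4 : ℝ) ≤ D ^ 11 := by
      calc (4 : ℝ) ≤ 2 ^ 11 := by norm_num
        _ ≤ D ^ 11 := pow_le_pow_left₀ (by norm_num) hD2 11
    have h3 : (3 : ℝ) ≤ (r : ℝ) := by linarith
    exact_mod_cast h3
  have hlog0 : 0 ≤ Real.log (Fintype.card ι) :=
    Real.log_nonneg (by exact_mod_cast (by omega : 1 ≤ Fintype.card ι))
  have hlogD : Real.log (Fintype.card ι) ≤ D := by linarith [hR.log_le]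
  set β : ℕ := (P.image κ).card with hβ
  have hβ0 : 0 < β := by
    rw [hβ, card_pos]
    exact (ts_nonempty hTS hn0).image κ
  have hβ0' : (0 : ℝ) < (β : ℝ) := by exact_mod_cast hβ0
  set q : ℝ := (r : ℝ) ^ x with hq
  have hq0 : 0 < q := by positivity
  have hlow : (β : ℝ) * q ≤ D * D * G := by
    have a1 := hUL ι K r m H D P E κ x hr1 hH0 hD0 hxm hN0 hTS true
    have a2 := hUn true
    have a3 : (0 : ℝ) ≤ (Un K r x κ (E true) : ℝ) := Nat.cast_nonneg _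
    calc (β : ℝ) * q ≤ H * D * (Un K r x κ (E true) : ℝ) := a1
      _ ≤ D * D * (Un K r x κ (E true) : ℝ) := by gcongr
      _ ≤ D * D * G := by gcongr
  have hG : 0 < G := by
    by_contra hG
    push Not at hG
    have : D * D * G ≤ 0 := mul_nonpos_of_nonneg_of_nonpos (by positivity) hG
    have := mul_pos hβ0' hq0
    linarith
  -- deleting classes
  obtain ⟨P1, hP1, hTSP1, hact⟩ := hCD ι K r m H D P E κ x G hr3 hD1 hn0 hTS hstab hG hUn
  set E1 : Bool → Finset ℕ := fun s => (E s).filter (fun i => K.a i ∈ P1) with hE1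
  set A : ℝ := 2 * G * (r : ℝ) ^ 2 / β with hA
  set h : ℝ := q / D ^ 20 with hh
  have hh0 : 0 < h := by positivity
  have hactA : ∀ p ∈ P1, ((act K r x κ E1 (κ p)).card : ℝ) ≤ A := by
    intro p hp
    have a1 := hact p hp
    have a2 : act K r x κ E1 (κ p) ⊆ act K r x κ E (κ p) := by
      unfold act
      refine image_subset_image (filter_subset_filter _ ?_)
      exact union_subset_union (filter_subset _ _) (filter_subset _ _)
    have a3 : ((act K r x κ E1 (κ p)).card : ℝ) ≤ ((act K r x κ E (κ p)).card : ℝ) := by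
      exact_mod_cast card_le_card a2
    rw [hA, le_div_iff₀ hβ0']
    exact (mul_le_mul_of_nonneg_right a3 hβ0'.le).trans a1
  obtain ⟨κ', hkey', href, hcut, hsep, hcnt⟩ := hHB ι K r x hr1 hn2 P1 E1 κ h A hh0 hkey hactA
    (by
      intro c hc
      rcases mem_union.1 hc with hc | hc
      · exact (hTSP1.hyg true c hc).lt
      · exact (hTSP1.hyg false c hc).lt)
  set E2 : Bool → Finset ℕ := fun s => (E1 s).filter (fun i => κ' (K.a i) = κ' (K.b i) ∧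
    100 * ((cl K r m H κ' (K.a i)) \ vis K r x (cell K r x i)).card ≤
      (cl K r m H κ' (K.a i)).card) with hE2
  have hE21 : ∀ s, E2 s ⊆ E1 s := fun s => filter_subset _ _
  have hE10 : ∀ s, E1 s ⊆ E s := fun s => filter_subset _ _
  have hdel : ∀ s, (2 * D) ^ 4 * ((E1 s \ E2 s).card : ℝ) ≤ K.N := by
    intro s
    set F1 := (range K.N).filter (fun i => κ (K.a i) = κ (K.b i) ∧ κ' (K.a i) ≠ κ' (K.b i))
      with hF1
    set F2 := (E1 s).filter (fun i => ¬ 100 * ((cl K r m H κ' (K.a i)) \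
      vis K r x (cell K r x i)).card ≤ (cl K r m H κ' (K.a i)).card) with hF2
    have b1 : E1 s \ E2 s ⊆ F1 ∪ F2 := by
      intro i hi
      obtain ⟨hi1, hi2⟩ := mem_sdiff.1 hi
      by_cases hc : κ' (K.a i) = κ' (K.b i)
      · refine mem_union_right _ (mem_filter.2 ⟨hi1, fun h5 => hi2 ?_⟩)
        exact mem_filter.2 ⟨hi1, hc, h5⟩
      · refine mem_union_left _ (mem_filter.2 ⟨mem_range.2 (hTSP1.hyg s i hi1).lt, ?_, hc⟩)
        exact h1 s i (hE10 s hi1)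
    have b2 : ((E1 s \ E2 s).card : ℝ) ≤ (F1.card : ℝ) + (F2.card : ℝ) := by
      exact_mod_cast (card_le_card b1).trans (card_union_le _ _)
    have b3 : (F1.card : ℝ) ≤ 4 * Fintype.card ι * (r : ℝ) ^ (4 * x) := by
      exact_mod_cast hcut
    have b4 := hH5 ι K r m x hr1 hxm hn0 H h hH0.le hh0.le P1 E1 κ κ'
      (fun s i hi => ⟨hTSP1.hyg s i hi, hTSP1.aP s i hi⟩) href hsep s
    have b5 : (F2.card : ℝ) * D ^ 20 ≤ 200 * H * K.N := by
      have c1 : (F2.card : ℝ) * q ≤ 200 * H * K.N * h := b4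
      have c2 : (F2.card : ℝ) * D ^ 20 * q ≤ 200 * H * K.N * q := by
        have c3 := mul_le_mul_of_nonneg_right c1 (show 0 ≤ D ^ 20 by positivity)
        have c4 : 200 * H * K.N * h * D ^ 20 = 200 * H * K.N * q := by
          rw [hh]; field_simp
        rw [c4] at c3
        linarith
      exact le_of_mul_le_mul_right c2 hq0
    have b6 : (Fintype.card ι : ℝ) * ((r : ℝ) * (r : ℝ) ^ (4 * x)) ≤ K.N := by
      refine le_trans ?_ hnN
      refine mul_le_mul_of_nonneg_left ?_ (by positivity)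
      rw [← pow_succ']
      exact pow_le_pow_right₀ hr1' (by omega)
    have b7 := num_del (n := (Fintype.card ι : ℝ)) (N := (K.N : ℝ)) (r := (r : ℝ)) (D := D)
      (H := H) (c1 := (F1.card : ℝ)) (c2 := (F2.card : ℝ)) (q := (r : ℝ) ^ (4 * x))
      (by positivity) (by positivity) hD2 hH0.le hHD hrD11 (by positivity) b6 b3 b5
    refine le_trans ?_ b7
    exact mul_le_mul_of_nonneg_left b2 (by positivity)
  obtain ⟨P2, hP2, hTSP2⟩ := hTS1 ι K r m H (2 * D) P1 E1 E2 (by linarith) hN0 hTSP1 hE21 hdel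
  set E3 : Bool → Finset ℕ := fun s => (E2 s).filter (fun i => K.a i ∈ P2) with hE3
  have hE32 : ∀ s, E3 s ⊆ E2 s := fun s => filter_subset _ _
  have hpow : ∀ j, j ≤ 50 → D ^ j ≤ D ^ 50 := fun j hj => pow_le_pow_right₀ hD1 hj
  refine ⟨P2, E3, κ', ⟨hP2.trans hP1, fun s => (hE32 s).trans ((hE21 s).trans (hE10 s))⟩, ?_, ?_,
    href, ?_⟩
  · refine ts_mono hTSP2 ?_
    have a1 : 4 * (2 * D) ≤ D ^ 4 := by
      have : (8 : ℝ) ≤ D ^ 3 := by
        calc (8 : ℝ) = 2 ^ 3 := by norm_num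
          _ ≤ D ^ 3 := pow_le_pow_left₀ (by norm_num) hD2 3
      have e : D ^ 4 = D ^ 3 * D := by ring
      rw [e]
      nlinarith
    exact a1.trans (hpow 4 (by norm_num))
  · refine ⟨hkey', ?_, ?_, ?_⟩
    · intro s i hi
      exact (mem_filter.1 (hE32 s hi)).2.1
    · intro s B
      have a1 := hH4 ι K r m x hr1 hxm H hH0.le (E3 s) κ' (fun i hi => hTSP2.hyg s i hi)
        (fun i hi => (mem_filter.1 (hE32 s hi)).2.2) B
      refine a1.trans (mul_le_mul_of_nonneg_right ?_ (by positivity))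
      have a2 : 2 * H ≤ D ^ 2 := by nlinarith
      exact a2.trans (hpow 2 (by norm_num))
    · intro s i hi
      exact (mem_filter.1 (hE32 s hi)).2.2
  · have a1 : ((P2.image κ').card : ℝ) ≤ ((P1.image κ').card : ℝ) := by
      exact_mod_cast image_card_mono hP2
    have a2 : ((P1.image κ).card : ℝ) ≤ (β : ℝ) := by
      exact_mod_cast image_card_mono hP1
    have a3 : ((P2.image κ').card : ℝ) ≤ (β : ℝ) *
        (4 * (A / h) * Real.log (Fintype.card ι) + 3) ^ 2 :=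
      a1.trans (hcnt.trans (mul_le_mul_of_nonneg_right a2 (by positivity)))
    have a4 := num_cnt (β := (β : ℝ)) (β' := ((P2.image κ').card : ℝ)) (G := G) (D := D)
      (r := (r : ℝ)) (q := q) (L := Real.log (Fintype.card ι)) hβ0' hG hD2 hr1' hq0 hlog0 hlogD
      hlow a3
    have e : (r : ℝ) ^ (2 * x) = q ^ 2 := by rw [hq, ← pow_mul, mul_comm]
    rw [e]
    exact a4


/-- The computation with real numbers: `B1` classes, `G` units. -/
theorem real {r D b b1 b' : ℝ} {x y CF C0 : ℕ} (hr : 1 ≤ r) (hD : 2 ≤ D) (hb1 : 0 < b1)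
    (hxy : x ≤ y)
    (hbb : b ≤ r * b1) (h1b : b1 ≤ b) (hlo : r ^ (2 * x + y) ≤ b)
    (hup : b ≤ r ^ (2 * x + y + 11)) (hrD : D ^ (2 * CF + 4 * C0 + 4) ≤ r)
    (h2 : b' * b1 * r ^ (2 * y) ≤ (D ^ 4) ^ C0 * r ^ 4 *
      (D ^ CF * r ^ (2 * y) * (r ^ (y + 2 * x) + b) ^ 2 / r ^ (4 * x)) ^ 2) :
    b' ≤ r ^ (5 * y + 51 - 2 * x) := by
  have hr0 : (0 : ℝ) < r := by linarith
  have hD0 : (0 : ℝ) < D := by linarith
  have hb0 : 0 < b := by linarith
  -- the units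
  have e1 : (r ^ (y + 2 * x) + b) ^ 2 ≤ 4 * b ^ 2 := by
    have : r ^ (y + 2 * x) ≤ b := by rw [show y + 2 * x = 2 * x + y by ring]; exact hlo
    have h0 : 0 ≤ r ^ (y + 2 * x) := by positivity
    nlinarith
  have e2 : (D ^ CF * r ^ (2 * y) * (r ^ (y + 2 * x) + b) ^ 2 / r ^ (4 * x)) ^ 2 ≤
      (D ^ CF * r ^ (2 * y) * (4 * b ^ 2) / r ^ (4 * x)) ^ 2 := by
    apply pow_le_pow_left₀ (by positivity)
    gcongr
  have e3 : b' * b1 * r ^ (2 * y) ≤ (D ^ 4) ^ C0 * r ^ 4 *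
      (D ^ CF * r ^ (2 * y) * (4 * b ^ 2) / r ^ (4 * x)) ^ 2 :=
    h2.trans (mul_le_mul_of_nonneg_left e2 (by positivity))
  -- multiply by `r ^ (8 x)` and divide by `b1 r ^ (2 y)`
  have e4 : b' * (b1 * r ^ (2 * y)) * r ^ (8 * x) ≤
      D ^ (2 * CF + 4 * C0) * 16 * r ^ 4 * r ^ (4 * y) * b ^ 4 := by
    have h3 := mul_le_mul_of_nonneg_right e3 (show 0 ≤ r ^ (8 * x) by positivity)
    have h4 : (D ^ 4) ^ C0 * r ^ 4 *
        (D ^ CF * r ^ (2 * y) * (4 * b ^ 2) / r ^ (4 * x)) ^ 2 * r ^ (8 * x) =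
        D ^ (2 * CF + 4 * C0) * 16 * r ^ 4 * r ^ (4 * y) * b ^ 4 := by
      have h5 : r ^ (8 * x) = (r ^ (4 * x)) ^ 2 := by rw [← pow_mul]; congr 1; ring
      have h6 : r ^ (4 * y) = (r ^ (2 * y)) ^ 2 := by rw [← pow_mul]; congr 1; ring
      have h7 : D ^ (2 * CF + 4 * C0) = (D ^ CF) ^ 2 * (D ^ 4) ^ C0 := by
        rw [← pow_mul, ← pow_mul, ← pow_add]; congr 1; ring
      rw [h5, h6, h7]
      field_simp
      ring
    rw [h4] at h3
    calc b' * (b1 * r ^ (2 * y)) * r ^ (8 * x) = b' * b1 * r ^ (2 * y) * r ^ (8 * x) := by ring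
      _ ≤ _ := h3
  have e5 : D ^ (2 * CF + 4 * C0) * 16 * r ^ 4 * r ^ (4 * y) * b ^ 4 ≤
      (r ^ 6 * r ^ (2 * y) * b ^ 3) * (b1 * r ^ (2 * y)) := by
    have h3 : D ^ (2 * CF + 4 * C0) * 16 ≤ r := by
      have h4 : (16 : ℝ) ≤ D ^ 4 := by
        calc (16 : ℝ) = 2 ^ 4 := by norm_num
          _ ≤ D ^ 4 := pow_le_pow_left₀ (by norm_num) hD 4
      calc D ^ (2 * CF + 4 * C0) * 16 ≤ D ^ (2 * CF + 4 * C0) * D ^ 4 := by gcongr
        _ = D ^ (2 * CF + 4 * C0 + 4) := by rw [← pow_add]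
        _ ≤ r := hrD
    have h5 : r ^ (4 * y) = (r ^ (2 * y)) ^ 2 := by rw [← pow_mul]; congr 1; ring
    calc D ^ (2 * CF + 4 * C0) * 16 * r ^ 4 * r ^ (4 * y) * b ^ 4
        ≤ r * r ^ 4 * r ^ (4 * y) * b ^ 4 := by gcongr
      _ = r * r ^ 4 * r ^ (4 * y) * b ^ 3 * b := by ring
      _ ≤ r * r ^ 4 * r ^ (4 * y) * b ^ 3 * (r * b1) := by gcongr
      _ = (r ^ 6 * r ^ (2 * y) * b ^ 3) * (b1 * r ^ (2 * y)) := by rw [h5]; ring
  have e6 : b' * r ^ (8 * x) ≤ r ^ 6 * r ^ (2 * y) * b ^ 3 := by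
    have h3 : (b' * r ^ (8 * x)) * (b1 * r ^ (2 * y)) ≤
        (r ^ 6 * r ^ (2 * y) * b ^ 3) * (b1 * r ^ (2 * y)) := by
      refine le_trans (le_of_eq ?_) (e4.trans e5)
      ring
    exact le_of_mul_le_mul_right h3 (by positivity)
  have e7 : b ^ 3 ≤ r ^ (3 * (2 * x + y + 11)) := by
    rw [mul_comm 3, pow_mul]
    exact pow_le_pow_left₀ hb0.le hup 3
  have e8 : b' * r ^ (8 * x) ≤ r ^ (5 * y + 51 - 2 * x) * r ^ (8 * x) := by
    calc b' * r ^ (8 * x) ≤ r ^ 6 * r ^ (2 * y) * b ^ 3 := e6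
      _ ≤ r ^ 6 * r ^ (2 * y) * r ^ (3 * (2 * x + y + 11)) := by gcongr
      _ = r ^ (6 + 2 * y + 3 * (2 * x + y + 11)) := by rw [← pow_add, ← pow_add]
      _ ≤ r ^ ((5 * y + 51 - 2 * x) + 8 * x) := pow_le_pow_right₀ hr (by omega)
      _ = _ := by rw [pow_add]
  exact le_of_mul_le_mul_right e8 (by positivity)

/-- The jump from the step with separate exponents. -/
theorem jump (hC : StCore2) (hF : StFluxU) (hTS1 : StTS1) : StJump := by
  obtain ⟨C0, hC⟩ := hC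
  obtain ⟨CF, hF⟩ := hF 8
  refine ⟨2 * CF + 4 * C0 + 5, ?_⟩
  intro ι _ _ K r m H D P E κ x y hxy hym hR hT hCl hS hlo hup
  have hD1 : (1 : ℝ) ≤ D := hR.one_le
  have hD2 : (2 : ℝ) ≤ D := hR.two
  have hD0 : (0 : ℝ) < D := by linarith
  have hr1 : 1 ≤ r := by
    have := hR.std.two
    omega
  have hr1' : (1 : ℝ) ≤ (r : ℝ) := by exact_mod_cast hr1
  have hr0' : (0 : ℝ) < (r : ℝ) := by linarith
  have hn : 0 < Fintype.card ι := by
    have := hR.card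
    omega
  have hN0 := hR.N_pos
  -- few units
  obtain ⟨E', hE'⟩ := hF ι K r m H D P E κ x y hxy hym (hR.mono (by omega)) hT hCl
  -- the substructure
  have hDD : D ≤ D ^ 2 := by nlinarith
  have h4D : (4 : ℝ) ≤ D ^ 2 := by nlinarith
  obtain ⟨P1, hP1, hT1⟩ := hTS1 ι K r m H (D ^ 2) P E E' h4D hN0 (ts_mono hT hDD)
    (fun s => (hE' s).1) (fun s => by
      rw [← pow_mul]
      exact (hE' s).2.1)
  set E1 : Bool → Finset ℕ := fun s => (E' s).filter (fun i => K.a i ∈ P1) with hE1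
  have hE1E' : ∀ s, E1 s ⊆ E' s := fun s => filter_subset _ _
  have hE1E : ∀ s, E1 s ⊆ E s := fun s => (hE1E' s).trans (hE' s).1
  have hsub1 : SubTS P1 E1 P E := ⟨hP1, hE1E⟩
  have hD4 : 4 * D ^ 2 ≤ D ^ 4 := by
    have : D ^ 4 = D ^ 2 * D ^ 2 := by ring
    rw [this]
    exact mul_le_mul_of_nonneg_right h4D (by positivity)
  have hT4 : TS K r m H (D ^ 4) P1 E1 := ts_mono hT1 hD4
  have hle : ∀ j, j ≤ 2 * CF + 4 * C0 + 5 → D ^ j ≤ D ^ (2 * CF + 4 * C0 + 5) :=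
    fun j hj => pow_le_pow_right₀ hD1 hj
  have hle4 : (D ^ 4) ^ C0 ≤ D ^ (2 * CF + 4 * C0 + 5) := by
    rw [← pow_mul]
    exact hle _ (by omega)
  have h2D4 : 2 * D ^ 4 ≤ D ^ (2 * CF + 4 * C0 + 5) := by
    calc 2 * D ^ 4 ≤ D * D ^ 4 := by gcongr
      _ = D ^ 5 := by ring
      _ ≤ _ := hle 5 (by omega)
  have hS1 : Stab K r m H (2 * D ^ 4) P1 E1 κ := (hS.sub hsub1).mono h2D4
  -- stability
  have hbb : ((P.image κ).card : ℝ) ≤ (r : ℝ) * ((P1.image κ).card : ℝ) := by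
    have := hS P1 E1 hsub1 (ts_mono hT4 (hle 4 (by omega)))
    exact_mod_cast this
  have h1b : ((P1.image κ).card : ℝ) ≤ ((P.image κ).card : ℝ) := by
    exact_mod_cast image_card_mono hP1
  have hb1 : (0 : ℝ) < ((P1.image κ).card : ℝ) := by
    have := (ts_nonempty hT4 hn).image κ
    exact_mod_cast this.card_pos
  -- the step
  set G : ℝ := D ^ CF * (r : ℝ) ^ (2 * y) * ((r : ℝ) ^ (y + 2 * x) + (P.image κ).card) ^ 2 /
    (r : ℝ) ^ (4 * x) with hG
  have hUn : ∀ s, (Un K r y κ (E1 s) : ℝ) ≤ G := by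
    intro s
    rw [hG, le_div_iff₀ (by positivity)]
    refine le_trans ?_ (hE' s).2.2
    have : (Un K r y κ (E1 s) : ℝ) ≤ (Un K r y κ (E' s) : ℝ) := by
      exact_mod_cast Un_mono (hE1E' s)
    exact mul_le_mul_of_nonneg_right this (by positivity)
  obtain ⟨P2, E2, κ', a1, a2, a3, _, a5⟩ := hC ι K r m H (D ^ 4) P1 E1 κ y G hym
    (hR.pow (by norm_num) (by omega))
    (le_trans (by
      refine mul_le_mul_of_nonneg_left ?_ (by positivity)
      exact pow_le_pow_right₀ hr1' (by omega)) hR.nN)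
    hT4 hCl.key (fun s i hi => hCl.h1 s i (hE1E s hi)) hS1 hUn
  refine ⟨P2, E2, κ', subts_trans hsub1 a1, ts_mono a2 hle4, a3.inh hle4 (fun s => Subset.refl _),
    ?_⟩
  exact real hr1' hD2 hb1 hxy hbb h1b hlo hup (hR.mono (by omega)).rD a5

end YJUMP

open YJUMP in
/-- **The jump.** -/
theorem J_JUMP (hCD : StClsDel) (hUL : StUnLow) (hHB : StHashB) (hH5 : StH5Del) (hH4 : StH4)
    (hTS1 : StTS1) (hF : StFluxU) : StJump :=
  jump (core2 hCD hUL hHB hH5 hH4 hTS1) hF hTS1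

end Pool.Agent.Work.MP_e17eac_co.SK
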