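import Mathlib

/-!
# SKM (note 2873), WALK AND JUMP: the induction in abstract form

`P ω A x b`: in the situation `ω` there is a (stable) structure of loss exponent `A` with hash
classes of level `x`, whose number is `r ^ b`. `ok ω C`: `D ^ C ≤ r` and `r ^ C` is small.
-/

namespace Pool.Agent.Work.MP_e17eac_co.SKW

/-- STEP, LOWER BOUND and the start. -/
structure WJ {Ω : Type*} (P : Ω → ℕ → ℕ → ℝ → Prop) (ok : Ω → ℕ → Prop) : Prop where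
  okm : ∀ ω C C', C' ≤ C → ok ω C → ok ω C'
  mono : ∀ ω A A' x b, A ≤ A' → P ω A x b → P ω A' x b
  start : ∃ C, ∀ ω, ok ω C → P ω C 0 0
  low : ∀ x : ℕ, ∃ C : ℕ, ∀ ω A b, ok ω (C * (A + 1)) → P ω A x b → 4 * (x : ℝ) - 1 ≤ b
  walk : ∀ x : ℕ, ∃ C : ℕ, ∀ ω A b, ok ω (C * (A + 1)) → P ω A x b →
    ∃ b', P ω (C * (A + 1)) (x + 1) b' ∧ b' ≤ b + 13
  jump : ∀ x0 x : ℕ, x0 < x → ∃ C : ℕ, ∀ ω A b, ok ω (C * (A + 1)) → P ω A x0 b →
    ∃ b', P ω (C * (A + 1)) x b' ∧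
      b' ≤ 7 + 2 * (x : ℝ) + max (4 * (x : ℝ)) (4 * b - 8 * (x0 : ℝ)) - b

variable {Ω : Type*} {P : Ω → ℕ → ℕ → ℝ → Prop} {ok : Ω → ℕ → Prop}

/-- The statement `T c d`: at every level `y` at most `r ^ (4 y + c y + d)` classes. -/
def T (P : Ω → ℕ → ℕ → ℝ → Prop) (ok : Ω → ℕ → Prop) (c d : ℝ) : Prop :=
  ∀ y : ℕ, ∃ C : ℕ, ∀ ω, ok ω C → ∃ b, P ω C y b ∧ b ≤ (4 + c) * (y : ℝ) + d

/-- Walk only. -/
theorem T_walk (h : WJ P ok) : T P ok 9 0 := by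
  intro y
  induction y with
  | zero =>
    obtain ⟨C, hC⟩ := h.start
    exact ⟨C, fun ω ho => ⟨0, hC ω ho, by simp⟩⟩
  | succ y ih =>
    obtain ⟨C, hC⟩ := ih
    obtain ⟨C', hC'⟩ := h.walk y
    refine ⟨max C (C' * (C + 1)), fun ω ho => ?_⟩
    obtain ⟨b, hb, hb1⟩ := hC ω (h.okm _ _ _ (le_max_left _ _) ho)
    obtain ⟨b', hb', hb2⟩ := hC' ω C b (h.okm _ _ _ (le_max_right _ _) ho) hb
    refine ⟨b', h.mono _ _ _ _ _ (le_max_right _ _) hb', ?_⟩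
    push_cast
    linarith

/-- Walk until `2 x + y ≤ b`. -/
theorem walk_until (h : WJ P ok) (y : ℕ) : ∀ k x : ℕ, y + 1 ≤ 2 * (x + k) →
    ∃ C : ℕ, ∀ ω A b, ok ω (C * (A + 1)) → P ω A x b → b ≤ 2 * (x : ℝ) + y + 11 →
      ∃ x1 b1, x ≤ x1 ∧ x1 ≤ x + k ∧ P ω (C * (A + 1)) x1 b1 ∧ 2 * (x1 : ℝ) + y ≤ b1 ∧
        b1 ≤ 2 * (x1 : ℝ) + y + 11 := by
  intro k
  induction k with
  | zero =>
    intro x hx
    obtain ⟨C, hC⟩ := h.low x
    refine ⟨C + 1, fun ω A b ho hP hb => ⟨x, b, le_rfl, le_rfl, ?_, ?_, hb⟩⟩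
    · refine h.mono _ _ _ _ _ ?_ hP
      nlinarith [Nat.zero_le (C * A), Nat.zero_le C]
    · have h1 := hC ω A b (h.okm _ _ _ (Nat.mul_le_mul_right _ (Nat.le_succ C)) ho) hP
      have h2 : ((y + 1 : ℕ) : ℝ) ≤ ((2 * (x + 0) : ℕ) : ℝ) := by exact_mod_cast hx
      push_cast at h2
      linarith
  | succ k ih =>
    intro x hx
    obtain ⟨C1, hC1⟩ := h.walk x
    obtain ⟨C2, hC2⟩ := ih (x + 1) (by omega)
    -- total constant
    refine ⟨1 + C1 + C2 * (C1 + 1), fun ω A b ho hP hb => ?_⟩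
    have e0 : A ≤ (1 + C1 + C2 * (C1 + 1)) * (A + 1) := by
      nlinarith [Nat.zero_le (C1 * (A + 1)), Nat.zero_le (C2 * (C1 + 1) * (A + 1))]
    by_cases hb2 : 2 * (x : ℝ) + y ≤ b
    · exact ⟨x, b, le_rfl, by omega, h.mono _ _ _ _ _ e0 hP, hb2, hb⟩
    · push Not at hb2
      have e1 : C1 * (A + 1) ≤ (1 + C1 + C2 * (C1 + 1)) * (A + 1) :=
        Nat.mul_le_mul_right _ (by omega)
      have e2 : C2 * (C1 * (A + 1) + 1) ≤ (1 + C1 + C2 * (C1 + 1)) * (A + 1) := by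
        have : C2 * (C1 * (A + 1) + 1) ≤ C2 * ((C1 + 1) * (A + 1)) :=
          Nat.mul_le_mul_left _ (by nlinarith [Nat.zero_le A])
        calc C2 * (C1 * (A + 1) + 1) ≤ C2 * ((C1 + 1) * (A + 1)) := this
          _ = C2 * (C1 + 1) * (A + 1) := by ring
          _ ≤ _ := Nat.mul_le_mul_right _ (by omega)
      obtain ⟨b', hb', hb3⟩ := hC1 ω A b (h.okm _ _ _ e1 ho) hP
      obtain ⟨x1, b1, g1, g2, g3, g4, g5⟩ := hC2 ω (C1 * (A + 1)) b' (h.okm _ _ _ e2 ho) hb' (by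
        push_cast; linarith)
      exact ⟨x1, b1, by omega, by omega, h.mono _ _ _ _ _ e2 g3, g4, g5⟩

/-- One round: walk and jump. -/
theorem T_step (h : WJ P ok) {c d : ℝ} (hc : 0 ≤ c) (hd : 0 ≤ d) (hT : T P ok c d) :
    T P ok (c / 2) (d + 53) := by
  intro y
  by_cases hy : y ≤ 2
  · obtain ⟨C, hC⟩ := T_walk h y
    refine ⟨C, fun ω ho => ?_⟩
    obtain ⟨b, hb, hb1⟩ := hC ω ho
    refine ⟨b, hb, hb1.trans ?_⟩
    have h1 : (y : ℝ) ≤ 2 := by exact_mod_cast hy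
    have h0 : (0 : ℝ) ≤ (y : ℝ) := Nat.cast_nonneg y
    have h2 : 0 ≤ c / 2 * (y : ℝ) := by positivity
    nlinarith
  · push Not at hy
    set x0 : ℕ := ⌊((y : ℝ) - c * y / 2 - d) / 2⌋₊ with hx0
    have h0 : (0 : ℝ) ≤ (y : ℝ) := Nat.cast_nonneg y
    -- lower bound for x0
    have hlow : (y : ℝ) - c * y / 2 - d - 2 ≤ 2 * (x0 : ℝ) := by
      have := Nat.lt_floor_add_one (((y : ℝ) - c * y / 2 - d) / 2)
      rw [← hx0] at this
      linarith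
    have hcy : 0 ≤ c * (y : ℝ) := mul_nonneg hc h0
    -- upper bound for x0 (if positive)
    have hup : 1 ≤ x0 → 2 * (x0 : ℝ) ≤ (y : ℝ) - c * y / 2 - d := by
      intro h1
      have hnn : 0 ≤ ((y : ℝ) - c * y / 2 - d) / 2 := by
        by_contra hneg
        push Not at hneg
        have : x0 = 0 := by rw [hx0]; exact Nat.floor_of_nonpos hneg.le
        omega
      have := Nat.floor_le hnn
      rw [← hx0] at this
      linarith
    have hx0y : 2 * x0 ≤ y := by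
      rcases Nat.eq_zero_or_pos x0 with h1 | h1
      · omega
      · have := hup h1
        have h2 : (2 * (x0 : ℝ)) ≤ (y : ℝ) := by linarith
        exact_mod_cast h2
    -- the start of the walk
    obtain ⟨C0, hC0⟩ : ∃ C0 : ℕ, ∀ ω, ok ω C0 → ∃ b, P ω C0 x0 b ∧
        b ≤ 2 * (x0 : ℝ) + y + 11 := by
      rcases Nat.eq_zero_or_pos x0 with h1 | h1
      · obtain ⟨C, hC⟩ := h.start
        refine ⟨C, fun ω ho => ⟨0, by rw [h1]; exact hC ω ho, by positivity⟩⟩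
      · obtain ⟨C, hC⟩ := hT x0
        refine ⟨C, fun ω ho => ?_⟩
        obtain ⟨b, hb, hb1⟩ := hC ω ho
        refine ⟨b, hb, hb1.trans ?_⟩
        have h2 := hup h1
        have h3 : (x0 : ℝ) ≤ (y : ℝ) / 2 := by
          have : ((2 * x0 : ℕ) : ℝ) ≤ (y : ℝ) := by exact_mod_cast hx0y
          push_cast at this; linarith
        have h4 : c * (x0 : ℝ) ≤ c * ((y : ℝ) / 2) := mul_le_mul_of_nonneg_left h3 hc
        nlinarith
    obtain ⟨C1, hC1⟩ := walk_until h y ((y + 2) / 2 - x0) x0 (by omega)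
    -- constants for the jumps
    have hj : ∃ C2 : ℕ, ∀ x1, x1 < y → ∀ ω A b, ok ω (C2 * (A + 1)) → P ω A x1 b →
        ∃ b', P ω (C2 * (A + 1)) y b' ∧
          b' ≤ 7 + 2 * (y : ℝ) + max (4 * (y : ℝ)) (4 * b - 8 * (x1 : ℝ)) - b := by
      choose! J hJ using fun x1 (hx1 : x1 < y) => h.jump x1 y hx1
      refine ⟨(Finset.range y).sup J, fun x1 hx1 ω A b ho hP => ?_⟩
      have hle : J x1 ≤ (Finset.range y).sup J := Finset.le_sup (Finset.mem_range.2 hx1)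
      have hle2 : J x1 * (A + 1) ≤ (Finset.range y).sup J * (A + 1) :=
        Nat.mul_le_mul_right _ hle
      obtain ⟨b', hb', hb1⟩ := hJ x1 hx1 ω A b (h.okm _ _ _ hle2 ho) hP
      exact ⟨b', h.mono _ _ _ _ _ hle2 hb', hb1⟩
    obtain ⟨C2, hC2⟩ := hj
    refine ⟨max C0 (max (C1 * (C0 + 1)) (C2 * (C1 * (C0 + 1) + 1))), fun ω ho => ?_⟩
    obtain ⟨b, hb, hb1⟩ := hC0 ω (h.okm _ _ _ (le_max_left _ _) ho)
    obtain ⟨x1, b1, g1, g2, g3, g4, g5⟩ := hC1 ω C0 b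
      (h.okm _ _ _ ((le_max_left _ _).trans (le_max_right _ _)) ho) hb hb1
    have hx1 : x1 < y := by omega
    obtain ⟨b', hb', hb2⟩ := hC2 x1 hx1 ω _ b1
      (h.okm _ _ _ ((le_max_right _ _).trans (le_max_right _ _)) ho) g3
    refine ⟨b', h.mono _ _ _ _ _ ((le_max_right _ _).trans (le_max_right _ _)) hb', ?_⟩
    have hmax : max (4 * (y : ℝ)) (4 * b1 - 8 * (x1 : ℝ)) ≤ 4 * (y : ℝ) + 44 :=
      max_le (by linarith) (by linarith)
    have hxx : (x0 : ℝ) ≤ (x1 : ℝ) := by exact_mod_cast g1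
    linarith

/-- **WALK AND JUMP.** -/
theorem walk_jump (h : WJ P ok) (ε : ℝ) (hε : 0 < ε) :
    ∃ d : ℝ, 0 ≤ d ∧ ∀ y : ℕ, ∃ C : ℕ, ∀ ω, ok ω C →
      ∃ b, P ω C y b ∧ b ≤ 4 * (y : ℝ) + ε * y + d := by
  have key : ∀ j : ℕ, T P ok (9 / 2 ^ j) (53 * j) := by
    intro j
    induction j with
    | zero => simpa using T_walk h
    | succ j ih =>
      have := T_step h (by positivity) (by positivity) ih
      convert this using 1
      · rw [pow_succ]; field_simp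
      · push_cast; ring
  obtain ⟨j, hj⟩ : ∃ j : ℕ, 9 / (2 : ℝ) ^ j ≤ ε := by
    obtain ⟨j, hj⟩ := pow_unbounded_of_one_lt (9 / ε) (one_lt_two)
    refine ⟨j, ?_⟩
    rw [div_le_iff₀ (by positivity)]
    rw [div_lt_iff₀ hε] at hj
    linarith
  refine ⟨53 * j, by positivity, fun y => ?_⟩
  obtain ⟨C, hC⟩ := key j y
  refine ⟨C, fun ω ho => ?_⟩
  obtain ⟨b, hb, hb1⟩ := hC ω ho
  refine ⟨b, hb, hb1.trans ?_⟩
  have h0 : (0 : ℝ) ≤ (y : ℝ) := Nat.cast_nonneg y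
  have := mul_le_mul_of_nonneg_right hj h0
  linarith

end Pool.Agent.Work.MP_e17eac_co.SKW
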